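import Pool.Agent.Helper297.SF.Main

/-!
# Stably free non-free modules of all ranks `2 ≤ r ≤ d - 2` in every dimension `d ≥ 4`

Over every algebraically closed field of characteristic two and for all `r`, `d` with
`2 ≤ r ≤ d - 2` there are a smooth affine rational variety `Spec R` of dimension `d` (a principal
open subset of affine space) and a projective `R`-module `P` of rank `r` with `P ⊕ R` free and `P`
not free.  The case `r = d - 2` is Q1.
-/

set_option autoImplicit false

open MvPolynomial SF

namespace Pool.Agent.Results.MP_bac99f_ag.AllRanks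

/-- `Spec R` is a smooth affine (irreducible) variety of dimension `d` over the field `k`:
`R` is a finitely generated `k`-algebra, an integral domain, a regular ring, smooth over `k`, of
Krull dimension `d`. -/
structure SmoothAffineVariety (k R : Type) [Field k] [CommRing R] [Algebra k R] (d : ℕ) :
    Prop where
  domain : IsDomain R
  finType : Algebra.FiniteType k R
  regular : IsRegularRing R
  smooth : Algebra.Smooth k R
  dim : ringKrullDim R = d

/-- `P` is a finitely generated projective `R`-module of constant rank `r`. -/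
def ProjectiveOfRank (R P : Type) [CommRing R] [AddCommGroup P] [Module R P] (r : ℕ) : Prop :=
  Module.Finite R P ∧ Module.Projective R P ∧
    ∀ p : PrimeSpectrum R, Module.rankAtStalk P p = r

/-- There are a smooth affine `k`-variety `Spec R` of dimension `d` and a projective `R`-module `P`
of rank `r` such that `P ⊕ R ≅ R^(r+1)` and `P` is not free. -/
def RealisedOver (k : Type) [Field k] (d r : ℕ) : Prop :=
  ∃ (R : Type) (_ : CommRing R) (_ : Algebra k R), SmoothAffineVariety k R d ∧
    ∃ (P : Type) (_ : AddCommGroup P) (_ : Module R P),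
      ProjectiveOfRank R P r ∧ Nonempty ((P × (Fin 1 → R)) ≃ₗ[R] (Fin (r + 1) → R)) ∧
        ¬ Module.Free R P

/-- the first variables -/
def ι {m N : ℕ} (h : m + 1 ≤ N) : Fin (m + 1) → Fin N := Fin.castLE h

/-- The form `F = ∑ t^i x_i^(2^s)` over `k[t]` in `N` variables, `i ≤ m`. -/
noncomputable def F0 (k : Type) [Field k] {m N : ℕ} (h : m + 1 ≤ N) (s : ℕ) :
    MvPolynomial (Fin N) (Polynomial k) :=
  ∑ i : Fin (m + 1), C (Polynomial.X ^ (i : ℕ)) * X (ι h i) ^ (2 ^ s)

/-- the specialization: the other variables are sent to zero -/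
noncomputable def sp (k : Type) [Field k] (m N : ℕ) :
    MvPolynomial (Fin N) (Polynomial k) →+* MvPolynomial (Fin (m + 1)) (FractionRing (Polynomial k)) :=
  MvPolynomial.eval₂Hom (C.comp (algebraMap (Polynomial k) (FractionRing (Polynomial k))))
    (fun j => if h : j.val < m + 1 then X ⟨j.val, h⟩ else 0)

theorem sp_C (k : Type) [Field k] (m N : ℕ) (a : Polynomial k) :
    sp k m N (C a) = C (algebraMap (Polynomial k) (FractionRing (Polynomial k)) a) := by
  simp [sp]

theorem sp_X (k : Type) [Field k] {m N : ℕ} (h : m + 1 ≤ N) (i : Fin (m + 1)) :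
    sp k m N (X (ι h i)) = X i := by
  unfold sp
  rw [MvPolynomial.eval₂Hom_X']
  have h1 : (ι h i).val < m + 1 := i.2
  rw [dif_pos h1]
  rfl

theorem F0_map (k : Type) [Field k] {m N : ℕ} (h : m + 1 ≤ N) (s : ℕ) :
    sp k m N (F0 k h s) =
      Fp (FractionRing (Polynomial k)) (m + 1) s (algebraMap (Polynomial k) _ Polynomial.X) := by
  unfold F0 Fp
  rw [map_sum]
  refine Finset.sum_congr rfl fun i _ => ?_
  simp only [map_mul, map_pow, sp_C, sp_X]

theorem F0_ne_zero (k : Type) [Field k] {m N : ℕ} (h : m + 1 ≤ N) (s : ℕ) : F0 k h s ≠ 0 := by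
  intro h0
  have := F0_map k h s
  rw [h0, map_zero] at this
  exact Fp_ne_zero _ (m + 1) s _ (by omega) this.symm

theorem realisedOver (k : Type) [Field k] [IsAlgClosed k] [CharP k 2] (d m : ℕ) (hm : 2 ≤ m)
    (hd : m + 2 ≤ d) : RealisedOver k d m := by
  obtain ⟨N, rfl⟩ : ∃ N, d = N + 1 := ⟨d - 1, by omega⟩
  have hN : m + 1 ≤ N := by omega
  obtain ⟨s, hs⟩ := not_completable (m + 1) (by omega)
  have hF := F0_ne_zero k hN s
  set F := F0 k hN s with hFdef
  let A := Localization.Away F
  have hdom : IsDomain A :=
    IsLocalization.isDomain_localization (powers_le_nonZeroDivisors_of_noZeroDivisors hF)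
  let x : Fin (m + 1) → A := fun i =>
    algebraMap (MvPolynomial (Fin N) (Polynomial k)) A (X (ι hN i))
  let w : Fin (m + 1) → A := fun i =>
    algebraMap (MvPolynomial (Fin N) (Polynomial k)) A
      (C (Polynomial.X ^ (i : ℕ)) * X (ι hN i) ^ (2 ^ s - 1)) * IsLocalization.Away.invSelf F
  have hxw : ∑ i, w i * x i = 1 := by
    have h1 : ∀ i, w i * x i = algebraMap (MvPolynomial (Fin N) (Polynomial k)) A
        (C (Polynomial.X ^ (i : ℕ)) * X (ι hN i) ^ (2 ^ s)) * IsLocalization.Away.invSelf F := by
      intro i
      have h2 : (X (ι hN i) : MvPolynomial (Fin N) (Polynomial k)) ^ (2 ^ s)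
          = X (ι hN i) ^ (2 ^ s - 1) * X (ι hN i) := by
        rw [← pow_succ]
        congr 1
        have : 0 < 2 ^ s := by positivity
        omega
      simp only [w, x]
      rw [h2, ← mul_assoc, map_mul _ (_ * _) (X (ι hN i))]
      ring
    rw [Finset.sum_congr rfl (fun i _ => h1 i), ← Finset.sum_mul, ← map_sum]
    exact IsLocalization.Away.mul_invSelf (S := A) F
  have hsm := smooth_away k N F
  refine ⟨A, inferInstance, inferInstance, ⟨hdom, hsm.1, regular_away k N F, hsm.2, ?_⟩, ?_⟩
  · have := krull_away' k (fun n F hF => krull_away k n F hF) N F hF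
    exact_mod_cast this
  · have hk := ker_row m x w hxw
    refine ⟨LinearMap.ker (Fintype.linearCombination A x), inferInstance, inferInstance,
      ⟨hk.1, hk.2.1, hk.2.2.1⟩, hk.2.2.2, ?_⟩
    intro hfree
    haveI := hk.1
    haveI := hfree
    have hrank : Module.finrank A (LinearMap.ker (Fintype.linearCombination A x)) = m := by
      obtain ⟨p⟩ : Nonempty (PrimeSpectrum A) := inferInstance
      have h1 := hk.2.2.1 p
      rw [Module.rankAtStalk_eq_finrank_of_free] at h1
      exact h1
    let e : LinearMap.ker (Fintype.linearCombination A x) ≃ₗ[A] (Fin m → A) :=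
      (Module.finBasisOfFinrankEq A _ hrank).equivFun
    obtain ⟨N1, N', h1, h2, h3⟩ := complete_of_free m x w hxw e
    obtain ⟨M, M', b, hM, hrow⟩ := clear_denoms F hF m (fun i => X (ι hN i)) N1 N' h1 h3
    haveI : CharP (FractionRing (Polynomial k)) 2 :=
      charP_of_injective_algebraMap (algebraMap k (FractionRing (Polynomial k))).injective 2
    refine hs (FractionRing (Polynomial k)) (algebraMap (Polynomial k) _ Polynomial.X)
      (X_not_sq k) (M.map (sp k m N)) (M'.map (sp k m N)) b ?_ ?_
    · have h4 := congrArg (fun Q => Q.map (sp k m N)) hM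
      simp only [Matrix.map_mul] at h4
      rw [h4]
      have h5 : sp k m N F = Fp (FractionRing (Polynomial k)) (m + 1) s
        (algebraMap (Polynomial k) _ Polynomial.X) := F0_map k hN s
      rw [← h5]
      ext i j
      by_cases hij : i = j
      · subst hij
        simp
      · simp [Matrix.one_apply_ne hij]
    · intro i
      have := hrow i
      change sp k m N (M 0 i) = X i
      rw [this]
      exact sp_X k hN i

/-- **All ranks `2 ≤ r ≤ d - 2` are realised.**  For all `r ≥ 2` and `d ≥ r + 2` and every
algebraically closed field `k` of characteristic two there are a smooth affine `k`-variety `Spec R`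
of dimension `d` and a projective `R`-module `P` of rank `r` with `P ⊕ R ≅ R^(r+1)` that is not
free.  In particular (`r = d - 2`) every `d ≥ 4` is realised. -/
theorem result :
    (∀ (k : Type) [Field k] [IsAlgClosed k] [CharP k 2] (d r : ℕ), 2 ≤ r → r + 2 ≤ d →
      RealisedOver k d r) ∧
    (∀ d : ℕ, 4 ≤ d → ∃ (k : Type) (_ : Field k), IsAlgClosed k ∧
      ∀ r : ℕ, 2 ≤ r → r ≤ d - 2 → RealisedOver k d r) := by
  refine ⟨fun k _ _ _ d r hr hd => realisedOver k d r hr hd, fun d hd => ?_⟩
  haveI : CharP (AlgebraicClosure (ZMod 2)) 2 :=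
    charP_of_injective_algebraMap (algebraMap (ZMod 2) (AlgebraicClosure (ZMod 2))).injective 2
  exact ⟨AlgebraicClosure (ZMod 2), inferInstance, inferInstance, fun r hr h =>
    realisedOver (AlgebraicClosure (ZMod 2)) d r hr (by omega)⟩

end Pool.Agent.Results.MP_bac99f_ag.AllRanks
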